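import Mathlib
import Pool.Agent.Lib.MP_f6e06e_al.Large
import Pool.Agent.Lib.MP_f6e06e_al.Square

/-!
Finite-dimensional quadratic algebras with `n` generators and `d > n ^ 2 / 4` relations, over every
field, for all `n` and `d`.
-/

namespace Pool.Agent.Results.MP_f6e06e_al.AllFields

open Pool.Agent.Lib.MP_f6e06e_al

universe u

theorem goodTwo_all (K : Type u) [Field K] (n : ℕ) : GoodTwo K n (n ^ 2 / 4 + 1) := by
  by_cases h : ∃ c : K, c ≠ 0 ∧ c ^ 2 ≠ 1
  · obtain ⟨c, hc, hc2⟩ := h
    exact (good_all hc hc2 n).goodTwo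
  · push Not at h
    refine goodTwo_small ?_ n
    by_cases h2 : (2 : K) = 0
    · exact Or.inl h2
    · right
      have h4 := h 2 h2
      linear_combination h4

theorem result (K : Type u) [Field K] (n d : ℕ) (hd : n ^ 2 < 4 * d) :
    ∃ q : Fin d → Fin n → Fin n → K,
      FiniteDimensional K (RingQuot (fun a b : FreeAlgebra K (Fin n) =>
        (∃ k, a = ∑ i, ∑ j, q k i j • (FreeAlgebra.ι K i * FreeAlgebra.ι K j)) ∧ b = 0)) :=
  (goodTwo_all K n).exists_finite d (by omega)

end Pool.Agent.Results.MP_f6e06e_al.AllFields
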